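import Pool.Agent.H37.CTN.Stmts

set_option autoImplicit false

namespace Pool.CND

open Finset Polynomial

namespace MO166

variable {F L : Type} [Field F] [Field L]

theorem comb_inj {s : ℕ} (φ : F →+* L) (X : Fin s → L)
    (ind : ∀ c : Fin s → F, ∑ i, φ (c i) * X i = 0 → c = 0) (c d : Fin s → F)
    (h : ∑ i, φ (c i) * X i = ∑ i, φ (d i) * X i) : c = d := by
  rw [← sub_eq_zero]
  apply ind
  have e : ∀ i, φ ((c - d) i) * X i = φ (c i) * X i - φ (d i) * X i := fun i => by
    rw [Pi.sub_apply, map_sub, sub_mul]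
  rw [Finset.sum_congr rfl fun i _ => e i, Finset.sum_sub_distrib, h, sub_self]

/-- the product formula -/
theorem product (φ : F →+* L) {p f q : ℕ} (hp : p.Prime) [CharP L p] (hf : 1 ≤ f) (hq : q = p ^ f)
    [Fintype F] (hF : Nat.card F = q) (s : ℕ) (v : Fin (s + 1) → L)
    (ind : ∀ c : Fin s → F, ∑ i, φ (c i) * v i.castSucc = 0 → c = 0) :
    Mo q (s + 1) v = Mo q s (fun i => v i.castSucc) *
      ∏ c : Fin s → F, (v (Fin.last s) - ∑ i, φ (c i) * v i.castSucc) := by
  classical
  have : Fact p.Prime := ⟨hp⟩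
  have hq2 : 2 ≤ q := by
    rw [hq]
    calc 2 ≤ p := hp.two_le
      _ = p ^ 1 := (pow_one p).symm
      _ ≤ p ^ f := Nat.pow_le_pow_right hp.pos hf
  have hpow : ∀ a : F, a ^ q = a := by
    intro a
    rw [← hF, Nat.card_eq_fintype_card]
    exact FiniteField.pow_card a
  obtain ⟨w, hw⟩ : ∃ w : Fin s → L, w = fun i => v i.castSucc := ⟨_, rfl⟩
  obtain ⟨a, ha⟩ : ∃ a : Fin (s + 1) → L, a = fun i : Fin (s + 1) => (-1) ^ ((i : ℕ) + s) *
    (Matrix.of fun i' j' : Fin s => w j' ^ q ^ ((i.succAbove i' : Fin (s + 1)) : ℕ)).det := ⟨_, rfl⟩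
  have hal : a (Fin.last s) = Mo q s w := by
    rw [ha]
    simp only [Fin.val_last, Fin.succAbove_last, Fin.val_castSucc]
    rw [← two_mul, pow_mul, neg_one_sq, one_pow, one_mul]
    rfl
  set R : L[X] := ∑ i : Fin (s + 1), Polynomial.C (a i) * Polynomial.X ^ q ^ (i : ℕ) with hR
  have hev : ∀ z : L, R.eval z = ∑ i : Fin (s + 1), a i * z ^ q ^ (i : ℕ) := by
    intro z
    rw [hR, Polynomial.eval_finsetSum]
    simp
  have hMo : ∀ z : L, R.eval z = Mo q (s + 1) (Fin.snoc (α := fun _ => L) w z) := by
    intro z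
    rw [hev, Mo, Matrix.det_succ_column _ (Fin.last s)]
    refine Finset.sum_congr rfl fun i _ => ?_
    have e : (Matrix.of fun i j : Fin (s + 1) =>
        (Fin.snoc (α := fun _ => L) w z : Fin (s + 1) → L) j ^ q ^ (i : ℕ)).submatrix
          i.succAbove (Fin.last s).succAbove =
        Matrix.of fun i' j' : Fin s => w j' ^ q ^ ((i.succAbove i' : Fin (s + 1)) : ℕ) := by
      ext i' j'
      simp [Matrix.submatrix_apply]
    rw [e, ha]
    simp only [Matrix.of_apply, Fin.snoc_last, Fin.val_last]
    ring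
  have hdeg : R.natDegree ≤ q ^ s := by
    rw [hR]
    refine Polynomial.natDegree_sum_le_of_forall_le _ _ fun i _ => ?_
    refine (Polynomial.natDegree_C_mul_X_pow_le _ _).trans ?_
    exact Nat.pow_le_pow_right (by omega) (by omega)
  have hcoeff : R.coeff (q ^ s) = Mo q s w := by
    rw [hR, Polynomial.finsetSum_coeff, Finset.sum_eq_single (Fin.last s)]
    · rw [Polynomial.coeff_C_mul_X_pow, Fin.val_last, if_pos rfl, hal]
    · intro i _ hi
      rw [Polynomial.coeff_C_mul_X_pow, if_neg]
      intro h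
      apply hi
      have := Nat.pow_right_injective hq2 h
      exact Fin.ext this.symm
    · intro h
      exact absurd (Finset.mem_univ _) h
  have hchar : ∀ (i : ℕ) (x y : L), (x + y) ^ q ^ i = x ^ q ^ i + y ^ q ^ i := by
    intro i x y
    rw [hq, ← pow_mul]
    exact add_pow_char_pow x y p (f * i)
  have hφ : ∀ (i : ℕ) (c : F), φ c ^ q ^ i = φ c := by
    intro i c
    induction i with
    | zero => simp
    | succ i ih => rw [pow_succ, pow_mul, ih, ← map_pow, hpow]
  have hadd : ∀ x y : L, R.eval (x + y) = R.eval x + R.eval y := by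
    intro x y
    rw [hev, hev, hev, ← Finset.sum_add_distrib]
    refine Finset.sum_congr rfl fun i _ => ?_
    rw [hchar]
    ring
  have hmul : ∀ (c : F) (x : L), R.eval (φ c * x) = φ c * R.eval x := by
    intro c x
    rw [hev, hev, Finset.mul_sum]
    refine Finset.sum_congr rfl fun i _ => ?_
    rw [mul_pow, hφ]
    ring
  have hw0 : ∀ j : Fin s, R.eval (w j) = 0 := by
    intro j
    rw [hMo, Mo]
    apply Matrix.det_zero_of_column_eq (i := j.castSucc) (j := Fin.last s)
    · exact (Fin.castSucc_lt_last j).ne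
    · intro i
      simp
  obtain ⟨ℓ, hℓ⟩ : ∃ ℓ : (Fin s → F) → L, ℓ = fun c => ∑ i, φ (c i) * w i := ⟨_, rfl⟩
  have hroot : ∀ c, R.eval (ℓ c) = 0 := by
    intro c
    have h1 : AddMonoidHom.mk' (fun z => R.eval z) hadd (ℓ c) = 0 := by
      rw [hℓ]
      simp only []
      rw [map_sum]
      refine Finset.sum_eq_zero fun i _ => ?_
      show R.eval (φ (c i) * w i) = 0
      rw [hmul, hw0, mul_zero]
    exact h1
  have hinj : Function.Injective ℓ := by
    intro c d h
    rw [hℓ] at h
    exact comb_inj φ w (by rw [hw]; exact ind) c d h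
  set S : L[X] := ∏ c : Fin s → F, (Polynomial.X - Polynomial.C (ℓ c)) with hS
  have hcard : Fintype.card (Fin s → F) = q ^ s := by
    rw [Fintype.card_fun, Fintype.card_fin, ← Nat.card_eq_fintype_card, hF]
  have hSm : S.Monic := Polynomial.monic_prod_of_monic _ _ fun c _ => Polynomial.monic_X_sub_C _
  have hSd : S.natDegree = q ^ s := by
    rw [hS, Polynomial.natDegree_prod_of_monic _ _ fun c _ => Polynomial.monic_X_sub_C _]
    simp only [Polynomial.natDegree_X_sub_C, Finset.sum_const, Finset.card_univ, smul_eq_mul,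
      mul_one]
    exact hcard
  have hQ : R - Polynomial.C (Mo q s w) * S = 0 := by
    by_contra hne
    have hd : (R - Polynomial.C (Mo q s w) * S).natDegree ≤ q ^ s := by
      refine (Polynomial.natDegree_sub_le _ _).trans (max_le hdeg ?_)
      exact (Polynomial.natDegree_C_mul_le _ _).trans hSd.le
    have hc : (R - Polynomial.C (Mo q s w) * S).coeff (q ^ s) = 0 := by
      rw [Polynomial.coeff_sub, hcoeff, Polynomial.coeff_C_mul]
      have : S.coeff (q ^ s) = 1 := by
        rw [← hSd]
        exact hSm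
      rw [this]
      ring
    have hlt : (R - Polynomial.C (Mo q s w) * S).natDegree < q ^ s := by
      rcases hd.lt_or_eq with h | h
      · exact h
      · exfalso
        rw [← h] at hc
        exact hne (Polynomial.leadingCoeff_eq_zero.1 hc)
    apply hne
    refine Polynomial.eq_zero_of_natDegree_lt_card_of_eval_eq_zero _ hinj ?_ (by rw [hcard]; exact hlt)
    intro c
    rw [Polynomial.eval_sub, hroot, Polynomial.eval_mul, hS, Polynomial.eval_prod,
      Finset.prod_eq_zero (Finset.mem_univ c) (by simp)]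
    simp
  have hfin : R = Polynomial.C (Mo q s w) * S := sub_eq_zero.1 hQ
  have hv : (Fin.snoc (α := fun _ => L) w (v (Fin.last s)) : Fin (s + 1) → L) = v := by
    rw [hw]
    exact Fin.snoc_init_self v
  have h1 := hMo (v (Fin.last s))
  rw [hv] at h1
  rw [← h1, hfin, Polynomial.eval_mul, Polynomial.eval_C, hS, Polynomial.eval_prod, hw]
  congr 1
  refine Finset.prod_congr rfl fun c _ => ?_
  rw [Polynomial.eval_sub, Polynomial.eval_X, Polynomial.eval_C, hℓ, hw]

theorem ord_one {k : Type} [Field k] [Algebra k L] (P : Place k L) : P.ord 1 = 0 := by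
  have := P.ord_mul 1 1 one_ne_zero one_ne_zero
  rw [mul_one] at this
  omega

theorem ord_prod {k : Type} [Field k] [Algebra k L] (P : Place k L) {ι : Type} (T : Finset ι)
    (g : ι → L) (h : ∀ i ∈ T, g i ≠ 0) : P.ord (∏ i ∈ T, g i) = ∑ i ∈ T, P.ord (g i) := by
  classical
  induction T using Finset.induction_on with
  | empty => simp [ord_one]
  | insert i T hi ih =>
    have h1 : ∀ j ∈ T, g j ≠ 0 := fun j hj => h j (Finset.mem_insert_of_mem hj)
    rw [Finset.prod_insert hi, Finset.sum_insert hi,
      P.ord_mul _ _ (h i (Finset.mem_insert_self i T)) (Finset.prod_ne_zero_iff.2 h1), ih h1]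

end MO166

open MO166

theorem mo1_thm : S_MO1 := by
  intro p k F L _ _ _ _ _ f q s P v o hp hk hf hq hF h
  classical
  have hLp : CharP L p := charP_of_injective_algebraMap (algebraMap k L).injective p
  have hq2 : 2 ≤ q := by
    rw [hq]
    calc 2 ≤ p := hp.two_le
      _ = p ^ 1 := (pow_one p).symm
      _ ≤ p ^ f := Nat.pow_le_pow_right hp.pos hf
  have hfin : Finite F := Nat.finite_of_card_ne_zero (by omega)
  have := Fintype.ofFinite F
  obtain ⟨φ, hφ⟩ : ∃ φ : F →+* L, φ = (algebraMap k L).comp (algebraMap F k) := ⟨_, rfl⟩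
  have hcst : ∀ c : F, cst k F L c = φ c := by
    intro c
    rw [hφ]
    rfl
  induction s with
  | zero =>
    have e : Mo q 0 v = 1 := by
      unfold Mo
      exact Matrix.det_isEmpty
    rw [e]
    exact ⟨one_ne_zero, by simp [ord_one]⟩
  | succ s ih =>
    have hsnoc : ∀ (c : Fin s → F) (x : F),
        ∑ j, cst k F L ((Fin.snoc (α := fun _ => F) c x : Fin (s + 1) → F) j) * v j =
          ∑ i, φ (c i) * v i.castSucc + φ x * v (Fin.last s) := by
      intro c x
      rw [Fin.sum_univ_castSucc]
      simp only [Fin.snoc_castSucc, Fin.snoc_last, hcst]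
    have hsub : ∀ (i : Fin s) (c : Fin s → F), c i ≠ 0 → (∀ j, i < j → c j = 0) →
        ∑ j, cst k F L (c j) * v j.castSucc ≠ 0 ∧
          P.ord (∑ j, cst k F L (c j) * v j.castSucc) = o i.castSucc := by
      intro i c hc hj
      have h1 := h i.castSucc (Fin.snoc (α := fun _ => F) c 0) (by simpa using hc) (by
        intro j hij
        refine Fin.lastCases ?_ (fun j' hj' => ?_) j hij
        · intro _
          simp
        · rw [Fin.snoc_castSucc]
          exact hj j' (by simpa using hj'))
      rw [hsnoc, map_zero, zero_mul, add_zero] at h1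
      simpa only [hcst] using h1
    obtain ⟨ih1, ih2⟩ := ih (fun i => v i.castSucc) (fun i => o i.castSucc) hsub
    have ind : ∀ c : Fin s → F, ∑ i, φ (c i) * v i.castSucc = 0 → c = 0 := by
      intro c hc
      by_contra hne
      obtain ⟨i0, hi0⟩ : ∃ i, c i ≠ 0 := by
        by_contra hcon
        push Not at hcon
        exact hne (funext hcon)
      obtain ⟨i, hi, hmax⟩ := Finset.exists_max_image (Finset.univ.filter fun i => c i ≠ 0)
        (fun i => (i : ℕ)) ⟨i0, by simpa using hi0⟩
      have h1 := (hsub i c (by simpa using hi) (fun j hj => by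
        by_contra hcj
        have := hmax j (by simpa using hcj)
        exact absurd hj (by simpa using this))).1
      apply h1
      simpa only [hcst] using hc
    have hprod := product φ hp hf hq hF s v ind
    have hfac : ∀ c : Fin s → F, v (Fin.last s) - ∑ i, φ (c i) * v i.castSucc ≠ 0 ∧
        P.ord (v (Fin.last s) - ∑ i, φ (c i) * v i.castSucc) = o (Fin.last s) := by
      intro c
      have h1 := h (Fin.last s) (Fin.snoc (α := fun _ => F) (fun i => - c i) 1) (by simp) (by
        intro j hj
        exact absurd (Fin.le_last j) (not_le.2 hj))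
      rw [hsnoc, map_one, one_mul] at h1
      have e : ∑ i, φ (- c i) * v i.castSucc + v (Fin.last s) =
          v (Fin.last s) - ∑ i, φ (c i) * v i.castSucc := by
        simp only [map_neg, neg_mul, Finset.sum_neg_distrib]
        ring
      rw [e] at h1
      exact h1
    have hne : ∏ c : Fin s → F, (v (Fin.last s) - ∑ i, φ (c i) * v i.castSucc) ≠ 0 :=
      Finset.prod_ne_zero_iff.2 fun c _ => (hfac c).1
    rw [hprod]
    refine ⟨mul_ne_zero ih1 hne, ?_⟩
    rw [P.ord_mul _ _ ih1 hne, ih2, ord_prod P _ _ (fun c _ => (hfac c).1),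
      Finset.sum_congr rfl (fun c _ => (hfac c).2), Finset.sum_const, Finset.card_univ,
      Fintype.card_fun, Fintype.card_fin, ← Nat.card_eq_fintype_card, hF, Fin.sum_univ_castSucc]
    simp

end Pool.CND
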